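import Mathlib

/-! # Sequences without three collinear points on their graph: arithmetic core -/

namespace Pool.Agent.Q151.NTL

/-- the equation for three collinear points forces a right triangle pattern -/
theorem cases4 (R p : ℤ) (hR : 4 ≤ R) (hp : Prime p) (hpR : 6 * R ≤ p) (s t a b c : ℤ)
    (hs : 0 < s) (ht : 0 < t) (ha : 0 ≤ a) (ha' : a < 2 * R) (hb : 0 ≤ b) (hb' : b < 2 * R)
    (hc : 0 ≤ c) (hc' : c < 2 * R)
    (heq : s * t * (s + t) = p * (t * (b - a) + s * (b - c))) :
    (∃ m, 0 < m ∧ s = m * p ∧ a = c ∧ b = a + m * t) ∨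
    (∃ m, 0 < m ∧ t = m * p ∧ a = c ∧ b = a + m * s) ∨
    (∃ m, 0 < m ∧ s + t = m * p ∧ b = c ∧ b = a + m * s) ∨
    (∃ m, 0 < m ∧ s + t = m * p ∧ a = b ∧ a = c + m * t) := by
  have hp0 : 0 < p := by linarith
  have pos_of : ∀ z : ℤ, 0 < z → ∀ m, z = m * p → 0 < m := by
    intro z hz m hm
    by_contra hneg
    push Not at hneg
    have : m * p ≤ 0 := mul_nonpos_of_nonpos_of_nonneg hneg hp0.le
    linarith
  -- small multiples of p vanish
  have small : ∀ z : ℤ, p ∣ z → -p < z → z < p → z = 0 := by
    intro z hz h1 h2
    obtain ⟨q, rfl⟩ := hz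
    have h3 : q < 1 := by
      by_contra h4
      push Not at h4
      nlinarith
    have h4 : -1 < q := by
      by_contra h5
      push Not at h5
      nlinarith
    have : q = 0 := by omega
    rw [this, mul_zero]
  have hdvd : p ∣ s * t * (s + t) := ⟨_, heq⟩
  rcases hp.dvd_or_dvd hdvd with h | h
  · rcases hp.dvd_or_dvd h with h1 | h1
    · -- p ∣ s
      left
      obtain ⟨m, rfl⟩ := h1
      have hm := pos_of _ hs m (mul_comm p m)
      have e1 : m * t * (p * m + t) = t * (b - a) + p * m * (b - c) := by
        have : p * (m * t * (p * m + t)) = p * (t * (b - a) + p * m * (b - c)) := by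
          rw [← heq]; ring
        exact mul_left_cancel₀ hp0.ne' this
      have hmt : m * t < 2 * R := by
        by_contra hcon
        push Not at hcon
        have h2 : 0 < p * m + t := by positivity
        have h3 : t * (b - a) ≤ t * (2 * R - 1) := mul_le_mul_of_nonneg_left (by linarith) ht.le
        have h4 : p * m * (b - c) ≤ p * m * (2 * R - 1) :=
          mul_le_mul_of_nonneg_left (by linarith) (by positivity)
        have h5 : 2 * R * (p * m + t) ≤ m * t * (p * m + t) :=
          mul_le_mul_of_nonneg_right hcon h2.le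
        nlinarith
      have hmt0 : 0 < m * t := by positivity
      have hd : p ∣ t * (m * t - (b - a)) := by
        refine ⟨m * (b - c) - m * t * m, ?_⟩
        linear_combination e1
      rcases hp.dvd_or_dvd hd with h2 | h2
      · exfalso
        have h3 := small t h2 (by linarith) (by
          have : t ≤ m * t := by nlinarith
          linarith)
        linarith
      · have h3 := small _ h2 (by linarith) (by linarith)
        have h4 : b = a + m * t := by linarith
        have h5 : p * m * (m * t - (b - c)) = 0 := by
          have : t * (b - a) = t * (m * t) := by rw [h4]; ring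
          linear_combination e1 + this
        have h6 : m * t - (b - c) = 0 := by
          rcases mul_eq_zero.1 h5 with h7 | h7
          · exfalso
            have : 0 < p * m := by positivity
            linarith
          · exact h7
        exact ⟨m, hm, mul_comm p m, by linarith, h4⟩
    · -- p ∣ t
      right; left
      obtain ⟨m, rfl⟩ := h1
      have hm := pos_of _ ht m (mul_comm p m)
      have e1 : s * m * (s + p * m) = p * m * (b - a) + s * (b - c) := by
        have : p * (s * m * (s + p * m)) = p * (p * m * (b - a) + s * (b - c)) := by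
          rw [← heq]; ring
        exact mul_left_cancel₀ hp0.ne' this
      have hms : m * s < 2 * R := by
        by_contra hcon
        push Not at hcon
        have h2 : 0 < s + p * m := by positivity
        have h3 : s * (b - c) ≤ s * (2 * R - 1) := mul_le_mul_of_nonneg_left (by linarith) hs.le
        have h4 : p * m * (b - a) ≤ p * m * (2 * R - 1) :=
          mul_le_mul_of_nonneg_left (by linarith) (by positivity)
        have h5 : 2 * R * (s + p * m) ≤ m * s * (s + p * m) :=
          mul_le_mul_of_nonneg_right hcon h2.le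
        nlinarith
      have hms0 : 0 < m * s := by positivity
      have hd : p ∣ s * (m * s - (b - c)) := by
        refine ⟨m * (b - a) - m * s * m, ?_⟩
        linear_combination e1
      rcases hp.dvd_or_dvd hd with h2 | h2
      · exfalso
        have h3 := small s h2 (by linarith) (by
          have : s ≤ m * s := by nlinarith
          linarith)
        linarith
      · have h3 := small _ h2 (by linarith) (by linarith)
        have h4 : b = c + m * s := by linarith
        have h5 : p * m * (m * s - (b - a)) = 0 := by
          have : s * (b - c) = s * (m * s) := by rw [h4]; ring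
          linear_combination e1 + this
        have h6 : m * s - (b - a) = 0 := by
          rcases mul_eq_zero.1 h5 with h7 | h7
          · exfalso
            have : 0 < p * m := by positivity
            linarith
          · exact h7
        exact ⟨m, hm, mul_comm p m, by linarith, by linarith⟩
  · -- p ∣ s + t
    obtain ⟨m, hst⟩ := h
    have hm := pos_of _ (by linarith : 0 < s + t) m (by rw [hst]; ring)
    have e1 : m * s * t = t * (b - a) + s * (b - c) := by
      have : p * (m * s * t) = p * (t * (b - a) + s * (b - c)) := by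
        rw [← heq, hst]; ring
      exact mul_left_cancel₀ hp0.ne' this
    have hle : m * s * t ≤ (s + t) * (2 * R - 1) := by
      have h3 : s * (b - c) ≤ s * (2 * R - 1) := mul_le_mul_of_nonneg_left (by linarith) hs.le
      have h4 : t * (b - a) ≤ t * (2 * R - 1) := mul_le_mul_of_nonneg_left (by linarith) ht.le
      nlinarith
    rcases le_total s t with h1 | h1
    · right; right; left
      have hms : m * s < 4 * R := by
        by_contra hcon
        push Not at hcon
        have h5 : 4 * R * t ≤ m * s * t := mul_le_mul_of_nonneg_right hcon ht.le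
        nlinarith
      have hms0 : 0 < m * s := by positivity
      have hd : p ∣ s * (m * s - (c - a)) := by
        refine ⟨m * (m * s - (b - a)), ?_⟩
        have ht' : t = p * m - s := by linarith
        rw [ht'] at e1
        linear_combination (-1 : ℤ) * e1
      rcases hp.dvd_or_dvd hd with h2 | h2
      · exfalso
        have h3 := small s h2 (by linarith) (by
          have : s ≤ m * s := by nlinarith
          linarith)
        linarith
      · have h3 := small _ h2 (by linarith) (by linarith)
        have h4 : c = a + m * s := by linarith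
        have h5 : (s + t) * (m * s - (b - a)) = 0 := by
          rw [h4] at e1
          linear_combination e1
        have h6 : m * s - (b - a) = 0 := by
          rcases mul_eq_zero.1 h5 with h7 | h7
          · exfalso; linarith
          · exact h7
        exact ⟨m, hm, by rw [hst]; ring, by linarith, by linarith⟩
    · right; right; right
      have hmt : m * t < 4 * R := by
        by_contra hcon
        push Not at hcon
        have h5 : 4 * R * s ≤ m * t * s := mul_le_mul_of_nonneg_right hcon hs.le
        nlinarith
      have hmt0 : 0 < m * t := by positivity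
      have hd : p ∣ t * (m * t - (a - c)) := by
        refine ⟨m * (m * t - (b - c)), ?_⟩
        have hs' : s = p * m - t := by linarith
        rw [hs'] at e1
        linear_combination (-1 : ℤ) * e1
      rcases hp.dvd_or_dvd hd with h2 | h2
      · exfalso
        have h3 := small t h2 (by linarith) (by
          have : t ≤ m * t := by nlinarith
          linarith)
        linarith
      · have h3 := small _ h2 (by linarith) (by linarith)
        have h4 : a = c + m * t := by linarith
        have h5 : (s + t) * (m * t - (b - c)) = 0 := by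
          rw [h4] at e1
          linear_combination e1
        have h6 : m * t - (b - c) = 0 := by
          rcases mul_eq_zero.1 h5 with h7 | h7
          · exfalso; linarith
          · exact h7
        exact ⟨m, hm, by rw [hst]; ring, by linarith, h4⟩

/-- the endgame modulo `R = 2^r` -/
theorem endgame (r : ℕ) (p : ℤ) (hR : (4 : ℤ) ≤ 2 ^ r) (hcop : IsCoprime ((2 : ℤ) ^ r) p)
    (m τ e : ℤ) (hm : 0 < m) (hτ : 0 < τ) (hodd : e % 2 = 1) (h1 : (2 : ℤ) ^ r ∣ p * (m * e))
    (h2 : (2 : ℤ) ^ r ∣ τ * e) (hlt : m * τ < 2 * 2 ^ r) : False := by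
  have hce : IsCoprime ((2 : ℤ) ^ r) e := by
    apply IsCoprime.pow_left
    rw [Int.isCoprime_iff_gcd_eq_one]
    have : Odd e := Int.odd_iff.2 hodd
    have h3 : Int.gcd 2 e ∣ 2 := by
      have := Int.gcd_dvd_natAbs_left 2 e
      simpa using this
    have h4 : (Nat.dvd_prime Nat.prime_two).1 h3 = (Nat.dvd_prime Nat.prime_two).1 h3 := rfl
    rcases (Nat.dvd_prime Nat.prime_two).1 h3 with h5 | h5
    · exact h5
    · exfalso
      have h6 : (2 : ℤ) ∣ e := by
        have := Int.gcd_dvd_right 2 e
        rw [h5] at this
        exact_mod_cast this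
      omega
  have h3 : (2 : ℤ) ^ r ∣ m := hce.dvd_of_dvd_mul_right (hcop.dvd_of_dvd_mul_left h1)
  have h4 : (2 : ℤ) ^ r ∣ τ := hce.dvd_of_dvd_mul_right h2
  have h5 := Int.le_of_dvd hm h3
  have h6 := Int.le_of_dvd hτ h4
  nlinarith

section construction

variable (r : ℕ) (p c : ℤ)

def uu (j : ℤ) : ℤ := (c * (j * (j + 1))) % 2 ^ r + 2 ^ r * (j % 2)

def FF (j : ℤ) : ℤ := j * (j + 1) + p * uu r c j

def ff (j : ℤ) : ℤ := FF r p c j / 2 ^ r

variable {r p c}

theorem uu_nonneg (j : ℤ) : 0 ≤ uu r c j := by
  unfold uu
  have h1 : 0 ≤ (c * (j * (j + 1))) % 2 ^ r := Int.emod_nonneg _ (by positivity)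
  have h2 : 0 ≤ j % 2 := Int.emod_nonneg _ (by norm_num)
  positivity

theorem uu_lt (j : ℤ) : uu r c j < 2 * 2 ^ r := by
  unfold uu
  have h0 : (0 : ℤ) < 2 ^ r := by positivity
  have h1 : (c * (j * (j + 1))) % 2 ^ r < 2 ^ r := Int.emod_lt_of_pos _ h0
  have h2 : j % 2 < 2 := Int.emod_lt_of_pos _ (by norm_num)
  have h3 : j % 2 ≤ 1 := by omega
  nlinarith

theorem uu_parity {i j : ℤ} (h : uu r c i = uu r c j) : i % 2 = j % 2 := by
  unfold uu at h
  have h0 : (0 : ℤ) < 2 ^ r := by positivity
  have h1 : (c * (i * (i + 1))) % 2 ^ r < 2 ^ r := Int.emod_lt_of_pos _ h0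
  have h2 : 0 ≤ (c * (i * (i + 1))) % 2 ^ r := Int.emod_nonneg _ (by positivity)
  have h3 : (c * (j * (j + 1))) % 2 ^ r < 2 ^ r := Int.emod_lt_of_pos _ h0
  have h4 : 0 ≤ (c * (j * (j + 1))) % 2 ^ r := Int.emod_nonneg _ (by positivity)
  by_contra hne
  rcases (by omega : (i % 2 = 0 ∧ j % 2 = 1) ∨ (i % 2 = 1 ∧ j % 2 = 0)) with ⟨h5, h6⟩ | ⟨h5, h6⟩
  · rw [h5, h6] at h; linarith
  · rw [h5, h6] at h; linarith

theorem FF_dvd (hc : (2 : ℤ) ^ r ∣ p * c + 1) (j : ℤ) : (2 : ℤ) ^ r ∣ FF r p c j := by
  unfold FF uu
  have h1 : (2 : ℤ) ^ r ∣ c * (j * (j + 1)) - (c * (j * (j + 1))) % 2 ^ r :=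
    Int.dvd_self_sub_emod
  have e : j * (j + 1) + p * ((c * (j * (j + 1))) % 2 ^ r + 2 ^ r * (j % 2)) =
      (p * c + 1) * (j * (j + 1)) - p * (c * (j * (j + 1)) - (c * (j * (j + 1))) % 2 ^ r) +
      2 ^ r * (p * (j % 2)) := by ring
  rw [e]
  exact dvd_add (dvd_sub (hc.mul_right _) (h1.mul_left _)) (dvd_mul_right _ _)

theorem ff_mul (hc : (2 : ℤ) ^ r ∣ p * c + 1) (j : ℤ) : 2 ^ r * ff r p c j = FF r p c j :=
  Int.mul_ediv_cancel' (FF_dvd hc j)

theorem no_three (hR : (4 : ℤ) ≤ 2 ^ r) (hp : Prime p) (hpR : 6 * 2 ^ r ≤ p)
    (hc : (2 : ℤ) ^ r ∣ p * c + 1) (i j k : ℤ) (hij : i < j) (hjk : j < k)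
    (h : (k - i) * ff r p c j = (k - j) * ff r p c i + (j - i) * ff r p c k) : False := by
  have hcop : IsCoprime ((2 : ℤ) ^ r) p := by
    obtain ⟨q, hq⟩ := hc
    exact ⟨q, -c, by linear_combination (-1 : ℤ) * hq⟩
  obtain ⟨s, rfl⟩ : ∃ s, j = i + s := ⟨j - i, by ring⟩
  obtain ⟨t, rfl⟩ : ∃ t, k = i + s + t := ⟨k - (i + s), by ring⟩
  have hs : 0 < s := by linarith
  have ht : 0 < t := by linarith
  have hF : (s + t) * FF r p c (i + s) = t * FF r p c i + s * FF r p c (i + s + t) := by
    rw [← ff_mul hc, ← ff_mul hc, ← ff_mul hc]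
    linear_combination (2 : ℤ) ^ r * h
  have di := FF_dvd (r := r) hc i
  have dj := FF_dvd (r := r) hc (i + s)
  have dk := FF_dvd (r := r) hc (i + s + t)
  unfold FF at hF di dj dk
  have a0 := uu_nonneg (r := r) (c := c) i
  have a1 := uu_lt (r := r) (c := c) i
  have b0 := uu_nonneg (r := r) (c := c) (i + s)
  have b1 := uu_lt (r := r) (c := c) (i + s)
  have c0 := uu_nonneg (r := r) (c := c) (i + s + t)
  have c1 := uu_lt (r := r) (c := c) (i + s + t)
  have pac := fun h : uu r c i = uu r c (i + s + t) => uu_parity h
  have pbc := fun h : uu r c (i + s) = uu r c (i + s + t) => uu_parity h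
  have pab := fun h : uu r c i = uu r c (i + s) => uu_parity h
  generalize uu r c i = a at *
  generalize uu r c (i + s) = b at *
  generalize uu r c (i + s + t) = d at *
  have heq : s * t * (s + t) = p * (t * (b - a) + s * (b - d)) := by
    linear_combination (-1 : ℤ) * hF
  rcases cases4 (2 ^ r) p hR hp hpR s t a b d hs ht a0 a1 b0 b1 c0 c1 heq with
    ⟨m, hm, h1, h2, h3⟩ | ⟨m, hm, h1, h2, h3⟩ | ⟨m, hm, h1, h2, h3⟩ | ⟨m, hm, h1, h2, h3⟩
  · -- corner j, s = m p
    have hpar := pac h2
    apply endgame r p hR hcop m t (2 * i + s + t + 1) hm ht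
    · omega
    · have : (2 : ℤ) ^ r ∣ ((i + s) * (i + s + 1) + p * b) - (i * (i + 1) + p * a) :=
        dvd_sub dj di
      have e : ((i + s) * (i + s + 1) + p * b) - (i * (i + 1) + p * a) =
          p * (m * (2 * i + s + t + 1)) := by
        rw [h3]
        have : s = p * m := by rw [h1]; ring
        rw [this]; ring
      rwa [e] at this
    · have : (2 : ℤ) ^ r ∣ ((i + s + t) * (i + s + t + 1) + p * d) -
        ((i + s) * (i + s + 1) + p * b) := dvd_sub dk dj
      have e : ((i + s + t) * (i + s + t + 1) + p * d) - ((i + s) * (i + s + 1) + p * b) =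
          t * (2 * i + s + t + 1) := by
        rw [h3, ← h2]
        have : s = p * m := by rw [h1]; ring
        rw [this]; ring
      rwa [e] at this
    · linarith
  · -- corner j, t = m p
    have hpar := pac h2
    apply endgame r p hR hcop m s (2 * i + s + t + 1) hm hs
    · omega
    · have : (2 : ℤ) ^ r ∣ ((i + s + t) * (i + s + t + 1) + p * d) -
        ((i + s) * (i + s + 1) + p * b) := dvd_sub dk dj
      have e : ((i + s + t) * (i + s + t + 1) + p * d) - ((i + s) * (i + s + 1) + p * b) =
          p * (m * (2 * i + s + t + 1)) := by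
        rw [h3, ← h2]
        have : t = p * m := by rw [h1]; ring
        rw [this]; ring
      rwa [e] at this
    · have : (2 : ℤ) ^ r ∣ ((i + s) * (i + s + 1) + p * b) - (i * (i + 1) + p * a) :=
        dvd_sub dj di
      have e : ((i + s) * (i + s + 1) + p * b) - (i * (i + 1) + p * a) =
          s * (2 * i + s + t + 1) := by
        rw [h3]
        have : t = p * m := by rw [h1]; ring
        rw [this]; ring
      rwa [e] at this
    · linarith
  · -- corner i, s + t = m p
    have hpar := pbc h2
    apply endgame r p hR hcop m s (2 * i + 2 * s + t + 1) hm hs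
    · omega
    · have : (2 : ℤ) ^ r ∣ ((i + s + t) * (i + s + t + 1) + p * d) - (i * (i + 1) + p * a) :=
        dvd_sub dk di
      have e : ((i + s + t) * (i + s + t + 1) + p * d) - (i * (i + 1) + p * a) =
          p * (m * (2 * i + 2 * s + t + 1)) := by
        rw [← h2, h3]
        have : t = p * m - s := by linarith
        rw [this]; ring
      rwa [e] at this
    · have : (2 : ℤ) ^ r ∣ ((i + s) * (i + s + 1) + p * b) - (i * (i + 1) + p * a) :=
        dvd_sub dj di
      have e : ((i + s) * (i + s + 1) + p * b) - (i * (i + 1) + p * a) =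
          s * (2 * i + 2 * s + t + 1) := by
        rw [h3]
        have : t = p * m - s := by linarith
        rw [this]; ring
      rwa [e] at this
    · linarith
  · -- corner k, s + t = m p
    have hpar := pab h2
    apply endgame r p hR hcop m t (2 * i + s + 1) hm ht
    · omega
    · have : (2 : ℤ) ^ r ∣ ((i + s + t) * (i + s + t + 1) + p * d) - (i * (i + 1) + p * a) :=
        dvd_sub dk di
      have e : ((i + s + t) * (i + s + t + 1) + p * d) - (i * (i + 1) + p * a) =
          p * (m * (2 * i + s + 1)) := by
        rw [h3]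
        have : s = p * m - t := by linarith
        rw [this]; ring
      rwa [e] at this
    · have : (2 : ℤ) ^ r ∣ ((i + s + t) * (i + s + t + 1) + p * d) -
        ((i + s) * (i + s + 1) + p * b) := dvd_sub dk dj
      have e : ((i + s + t) * (i + s + t + 1) + p * d) - ((i + s) * (i + s + 1) + p * b) =
          t * (2 * i + s + 1) := by
        rw [← h2, h3]
        have : s = p * m - t := by linarith
        rw [this]; ring
      rwa [e] at this
    · linarith

end construction

end Pool.Agent.Q151.NTL
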