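import Pool.Agent.Q151.NTL.Core

/-! # The sequences -/

namespace Pool.Agent.Q151.NTL

/-- for every `n ≥ 5` there is a strictly increasing sequence of positive integers
`a_1 < ... < a_n ≤ 98 n √n` without three collinear points on its graph -/
theorem exists_seq (n : ℕ) (hn : 5 ≤ n) : ∃ a : ℤ → ℤ,
    (∀ j, 1 ≤ j → a j < a (j + 1)) ∧ 0 < a 1 ∧ (a n : ℝ) ≤ 98 * n * Real.sqrt n ∧
    ∀ i j k : ℤ, i < j → j < k → (j - i) * (a k - a j) ≠ (k - j) * (a j - a i) := by
  classical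
  -- the power of two
  have hex : ∃ r : ℕ, n ≤ 4 ^ r := ⟨n, (Nat.lt_pow_self (by norm_num)).le⟩
  set r := Nat.find hex with hr
  have h1 : n ≤ 4 ^ r := Nat.find_spec hex
  have hr2 : 2 ≤ r := by
    by_contra h
    push Not at h
    have : 4 ^ r ≤ 4 ^ 1 := Nat.pow_le_pow_right (by norm_num) (by omega)
    omega
  have h2 : 4 ^ (r - 1) < n := by
    have := Nat.find_min hex (m := r - 1) (by omega)
    omega
  have hR4 : (4 : ℤ) ≤ 2 ^ r := by
    calc (4 : ℤ) = 2 ^ 2 := by norm_num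
      _ ≤ 2 ^ r := pow_le_pow_right₀ (by norm_num) hr2
  have hsq1 : Real.sqrt n ≤ 2 ^ r := by
    rw [Real.sqrt_le_left (by positivity), ← pow_mul, mul_comm r 2, pow_mul]
    norm_num
    exact_mod_cast h1
  have hsq2 : (2 : ℝ) ^ r ≤ 2 * Real.sqrt n := by
    have h3 : (2 : ℝ) ^ (r - 1) ≤ Real.sqrt n := by
      apply Real.le_sqrt_of_sq_le
      rw [← pow_mul, mul_comm (r - 1) 2, pow_mul]
      norm_num
      exact_mod_cast h2.le
    have h4 : (2 : ℝ) ^ r = 2 * 2 ^ (r - 1) := by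
      rw [← pow_succ']
      congr 1
      omega
    rw [h4]; linarith
  -- the prime
  obtain ⟨p, hp, hp1, hp2⟩ := Nat.exists_prime_lt_and_le_two_mul (6 * 2 ^ r) (by positivity)
  have hpZ : Prime (p : ℤ) := Nat.prime_iff_prime_int.1 hp
  have hp1' : 6 * (2 : ℤ) ^ r ≤ p := by exact_mod_cast hp1.le
  have hp2' : (p : ℝ) ≤ 12 * 2 ^ r := by
    have : (p : ℝ) ≤ 2 * (6 * 2 ^ r) := by exact_mod_cast hp2
    linarith
  have hcop : IsCoprime ((2 : ℤ) ^ r) p := by
    apply IsCoprime.pow_left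
    have : Nat.Coprime 2 p := by
      rw [Nat.coprime_primes Nat.prime_two hp]
      intro h
      rw [← h] at hp1
      have : 1 ≤ 2 ^ r := Nat.one_le_two_pow
      omega
    exact_mod_cast Nat.isCoprime_iff_coprime.2 this
  obtain ⟨x, y, hxy⟩ := hcop
  have hc : (2 : ℤ) ^ r ∣ p * (-y) + 1 := ⟨x, by linear_combination (-1 : ℤ) * hxy⟩
  set c := -y with hcdef
  have hpos : (0 : ℤ) < 2 ^ r := by positivity
  have hppos : (0 : ℤ) < p := by exact_mod_cast hp.pos
  refine ⟨fun j => ff r p c j + 2 * p * j, ?_, ?_, ?_, ?_⟩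
  · intro j hj
    have e1 := ff_mul (r := r) (p := (p : ℤ)) hc j
    have e2 := ff_mul (r := r) (p := (p : ℤ)) hc (j + 1)
    have u1 := uu_lt (r := r) (c := c) j
    have u2 := uu_nonneg (r := r) (c := c) (j + 1)
    unfold FF at e1 e2
    have h5 : 0 < 2 ^ r * ((ff r p c (j + 1) + 2 * p * (j + 1)) - (ff r p c j + 2 * p * j)) := by
      have : 2 ^ r * ((ff r p c (j + 1) + 2 * p * (j + 1)) - (ff r p c j + 2 * p * j)) =
          2 * (j + 1) + p * (2 * 2 ^ r - uu r c j) + p * uu r c (j + 1) := by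
        linear_combination e2 - e1
      rw [this]
      have h6 : 0 < (p : ℤ) * (2 * 2 ^ r - uu r c j) := mul_pos hppos (by linarith)
      have h7 : 0 ≤ (p : ℤ) * uu r c (j + 1) := mul_nonneg hppos.le u2
      linarith
    have h6 : 0 < (ff r p c (j + 1) + 2 * p * (j + 1)) - (ff r p c j + 2 * p * j) :=
      pos_of_mul_pos_right h5 hpos.le
    simp only
    linarith
  · have e1 := ff_mul (r := r) (p := (p : ℤ)) hc 1
    have u2 := uu_nonneg (r := r) (c := c) 1
    unfold FF at e1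
    have h5 : 0 < 2 ^ r * (ff r p c 1 + 2 * p * 1) := by
      have : 2 ^ r * (ff r p c 1 + 2 * p * 1) = 2 + p * uu r c 1 + 2 * (p * 2 ^ r) := by
        linear_combination e1
      rw [this]
      have h7 : 0 ≤ (p : ℤ) * uu r c 1 := mul_nonneg hppos.le u2
      have h8 : 0 < (p : ℤ) * 2 ^ r := mul_pos hppos hpos
      linarith
    exact pos_of_mul_pos_right h5 hpos.le
  · have e1 := ff_mul (r := r) (p := (p : ℤ)) hc (n : ℤ)
    have u1 := uu_lt (r := r) (c := c) (n : ℤ)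
    unfold FF at e1
    have h5 : (2 : ℤ) ^ r * (ff r p c n + 2 * p * n) ≤ n * (n + 1) + 2 * (p * 2 ^ r) * (n + 1) := by
      have : (2 : ℤ) ^ r * (ff r p c n + 2 * p * n) =
          n * (n + 1) + p * uu r c n + 2 * (p * 2 ^ r) * n := by
        linear_combination e1
      rw [this]
      have h6 : (p : ℤ) * uu r c n ≤ p * (2 * 2 ^ r) := mul_le_mul_of_nonneg_left u1.le hppos.le
      linarith
    have h6 : (2 : ℝ) ^ r * ((ff r p c n + 2 * p * n : ℤ) : ℝ) ≤
        n * (n + 1) + 2 * (p * 2 ^ r) * (n + 1) := by exact_mod_cast h5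
    have hRpos : (0 : ℝ) < 2 ^ r := by positivity
    have hn0 : (0 : ℝ) < n := by exact_mod_cast (by omega : 0 < n)
    have hs0 : 0 < Real.sqrt n := Real.sqrt_pos.2 hn0
    have hsqn : Real.sqrt n * Real.sqrt n = n := Real.mul_self_sqrt hn0.le
    have hn1 : (n : ℝ) + 1 ≤ 2 * n := by
      have : (1 : ℝ) ≤ n := by exact_mod_cast (by omega : 1 ≤ n)
      linarith
    have h7 : (n : ℝ) ≤ 2 ^ r * Real.sqrt n := by
      calc (n : ℝ) = Real.sqrt n * Real.sqrt n := hsqn.symm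
        _ ≤ 2 ^ r * Real.sqrt n := mul_le_mul_of_nonneg_right hsq1 hs0.le
    have h8 : (p : ℝ) ≤ 24 * Real.sqrt n := by linarith
    have h9 : (n : ℝ) * (n + 1) + 2 * (p * 2 ^ r) * (n + 1) ≤
        2 ^ r * (49 * Real.sqrt n * (n + 1)) := by
      have hA : (n : ℝ) * (n + 1) ≤ 2 ^ r * Real.sqrt n * (n + 1) :=
        mul_le_mul_of_nonneg_right h7 (by linarith)
      have hB : (p : ℝ) * (2 * 2 ^ r * (n + 1)) ≤ 24 * Real.sqrt n * (2 * 2 ^ r * (n + 1)) :=
        mul_le_mul_of_nonneg_right h8 (by positivity)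
      nlinarith
    have h10 : (2 : ℝ) ^ r * ((ff r p c n + 2 * p * n : ℤ) : ℝ) ≤
        2 ^ r * (98 * n * Real.sqrt n) := by
      refine (h6.trans h9).trans ?_
      apply mul_le_mul_of_nonneg_left _ hRpos.le
      nlinarith [mul_le_mul_of_nonneg_left hn1 hs0.le]
    exact le_of_mul_le_mul_left h10 hRpos
  · intro i j k hij hjk h
    simp only at h
    exact no_three hR4 hpZ hp1' hc i j k hij hjk (by linear_combination (-1 : ℤ) * h)

end Pool.Agent.Q151.NTL
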